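import Mathlib
import Pool.Agent.Lib.MP_943ac9_co.Final

namespace Pool.Agent.Results.MP_943ac9_co.Triangle

theorem result {V : Type} [Fintype V] [DecidableEq V] (G : SimpleGraph V) [DecidableRel G.Adj]
    (hconn : G.Connected) (hclique : 3 ≤ G.cliqueNum) :
    (Fintype.card V : ℝ) ≤
      ∑ i ∈ Finset.univ.filter (fun i => 0 < (G.isHermitian_adjMatrix ℝ).eigenvalues i),
        (G.isHermitian_adjMatrix ℝ).eigenvalues i ^ 2 :=
  Pool.Agent.Lib.MP_943ac9_co.posEnergy hconn hclique _

end Pool.Agent.Results.MP_943ac9_co.Triangle
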